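import Pool.Agent.H27.L1.H16.GZZ.TAY1
import Pool.Agent.H27.L1.H16.GA.ZLC
import Pool.Agent.H27.L1.H34.GZZ.Targets

/-!
Row TAY of the board gzz: the zeta integral on a disc of radius `1 / δ`.
-/

set_option autoImplicit false

namespace Pool.Agent.H27.L1.H16.GZZ

open MeasureTheory Pool.Agent.H27.L1.H34.GM Pool.Agent.H27.L1.H34.GZ Pool.Agent.H27.L1.H34.GU Pool.Agent.H27.L1.H34.GA
  Pool.Agent.H27.L1.H16.GA

theorem pf_TAY : Pool.Agent.H27.L1.H34.GZZ.T_TAY := by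
  intro m χ hm1 hχ C0 hC0
  have hmR : (1 : ℝ) ≤ m := by exact_mod_cast hm1
  have hSC := dD_iter_SC (ph_SC (m := m) hχ) m
  have hn1 : 1 ≤ m ^ 2 := Nat.one_le_pow _ _ hm1
  have hκ0 : (-1 : ℂ) ^ (m ^ 2) * ((m ^ 2).factorial : ℂ) * ∫ x : V m, ph χ (mt x) ≠ 0 := by
    refine mul_ne_zero (mul_ne_zero (pow_ne_zero _ (by norm_num)) ?_) (ph_pos hχ)
    exact_mod_cast (m ^ 2).factorial_ne_zero
  have hκi : ∫ x : V m, (dD^[m] (ph χ)) (mt x) * ((trL m x : ℝ) : ℂ) ^ (m ^ 2) =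
      (-1 : ℂ) ^ (m ^ 2) * ((m ^ 2).factorial : ℂ) * ∫ x : V m, ph χ (mt x) := by
    have h1 := pf_DTR m (ph χ) (ph_SC hχ).smooth (ph_SC hχ).comp
    rw [← h1]
    refine integral_congr_ae (Filter.Eventually.of_forall fun x => ?_)
    simp only [trL_apply]
  have hsupp : ∀ x : V m, (dD^[m] (ph χ)) (mt x) ≠ 0 → ‖x‖ ≤ 1 := by
    intro x hx
    by_contra hcon
    push Not at hcon
    exact hx (dD_iter_supp (ph_supp hχ) m x hcon)
  obtain ⟨η, c2, C1, u, hη0, hη1, hc2, hC1, hu0, hu1, hcore⟩ := tay_core (X := V m) volume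
    (fun x : V m => (dD^[m] (ph χ)) (mt x))
    (fun x => trL m x) m (m ^ 2) _ (hSC.cont.integrable_of_hasCompactSupport hSC.comp)
    (trL m).continuous.aestronglyMeasurable hmR (fun x hx => trL_bd x (hsupp x hx)) hn1
    hκ0 hκi
  obtain ⟨r, hr0, hr⟩ := log_det_bd m η hη0
  obtain ⟨B, hB⟩ : ∃ B : ℝ, B = 2 * ((m : ℝ) + 1) ^ 2 + C0 := ⟨_, rfl⟩
  have hB0 : 0 < B := by rw [hB]; positivity
  obtain ⟨c, hc⟩ : ∃ c : ℝ, c = min η (min r (η / B)) := ⟨_, rfl⟩
  have hc0 : 0 < c := by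
    rw [hc]
    exact lt_min hη0 (lt_min hr0 (div_pos hη0 hB0))
  have hcη : c ≤ η := by rw [hc]; exact min_le_left _ _
  have hcr : c ≤ r := by rw [hc]; exact (min_le_right _ _).trans (min_le_left _ _)
  have hcB : B * c ≤ η := by
    have h1 : c ≤ η / B := by rw [hc]; exact (min_le_right _ _).trans (min_le_right _ _)
    rw [le_div_iff₀ hB0] at h1
    linarith
  refine ⟨c, c2, C1, hc0, hc2, hC1, ?_⟩
  intro f P s0 δ hfm hfb hP hfP hδ hδc
  have hs0 : 0 ≤ ‖s0‖ := norm_nonneg _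
  have hδP : 0 ≤ δ * P := mul_nonneg hδ.le hP
  have hδs : 0 ≤ δ * ‖s0‖ := mul_nonneg hδ.le hs0
  have hδ1 : δ ≤ c := by nlinarith
  have hδP1 : δ * P ≤ c := by nlinarith
  have hδs1 : δ * (1 + ‖s0‖) ≤ c := by nlinarith
  have hc1 : c ≤ 1 := hcη.trans hη1
  obtain ⟨h, hh⟩ : ∃ h : V m → ℝ, h = fun x => Real.log ((mt (e1 m + δ • x)).det) := ⟨_, rfl⟩
  obtain ⟨E, hE⟩ : ∃ E : V m → ℂ, E = fun x => Complex.exp ((s0 - ((m : ℂ) + 1) / 2) *
    ((h x : ℝ) : ℂ)) * f (mt (e1 m + δ • x)) := ⟨_, rfl⟩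
  have hdet : ∀ x : V m, ‖x‖ ≤ 1 → 0 < (mt (e1 m + δ • x)).det := fun x hx =>
    (hr x δ hx hδ (hδ1.trans hcr)).1
  have hlog : ∀ x : V m, ‖x‖ ≤ 1 → |h x - δ * trL m x| ≤ η * δ := by
    intro x hx
    rw [hh]
    exact (hr x δ hx hδ (hδ1.trans hcr)).2
  have hhm : Measurable h := by
    rw [hh]
    have h1 : Continuous (fun x : V m => (mt (e1 m + δ • x)).det) :=
      (Continuous.matrix_det (continuous_id : Continuous (fun z : V m => (mt z : Mat m)))).comp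
        (continuous_const.add (continuous_const_smul δ))
    exact Real.measurable_log.comp h1.measurable
  have hEm : AEStronglyMeasurable E volume := by
    rw [hE]
    refine AEStronglyMeasurable.mul ?_ (f_meas hfm δ hδ)
    have h1 : Measurable (fun x => Complex.exp ((s0 - ((m : ℂ) + 1) / 2) * ((h x : ℝ) : ℂ))) :=
      Complex.measurable_exp.comp ((Complex.measurable_ofReal.comp hhm).const_mul _)
    exact h1.aestronglyMeasurable
  have hE1 : ∀ x : V m, ‖x‖ ≤ 1 → ‖E x - 1‖ ≤ η := by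
    intro x hx
    have h1 : |h x| ≤ δ * (m + 1) := by
      have h2 := hlog x hx
      have h3 := trL_bd x hx
      have h4 : h x = (h x - δ * trL m x) + δ * trL m x := by ring
      rw [h4]
      refine (abs_add_le _ _).trans ?_
      rw [abs_mul, abs_of_pos hδ]
      have h5 : η * δ ≤ δ := by nlinarith
      have h6 : δ * |trL m x| ≤ δ * m := mul_le_mul_of_nonneg_left h3 hδ.le
      linarith
    obtain ⟨a, ha⟩ : ∃ a : ℂ, a = (s0 - ((m : ℂ) + 1) / 2) * ((h x : ℝ) : ℂ) := ⟨_, rfl⟩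
    have h7 : ‖a‖ ≤ (m + 1) ^ 2 * (δ * (1 + ‖s0‖)) := by
      rw [ha, norm_mul, Complex.norm_real, Real.norm_eq_abs]
      have h8 : ‖s0 - ((m : ℂ) + 1) / 2‖ ≤ ‖s0‖ + ((m : ℝ) + 1) := by
        refine (norm_sub_le _ _).trans ?_
        have h9 : ‖((m : ℂ) + 1) / 2‖ = ((m : ℝ) + 1) / 2 := by
          have : ((m : ℂ) + 1) / 2 = ((((m : ℝ) + 1) / 2 : ℝ) : ℂ) := by push_cast; ring
          rw [this, Complex.norm_real, Real.norm_eq_abs, abs_of_pos (by positivity)]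
        rw [h9]
        linarith
      have h10 : ‖s0‖ + ((m : ℝ) + 1) ≤ (m + 1) * (1 + ‖s0‖) := by nlinarith
      calc ‖s0 - ((m : ℂ) + 1) / 2‖ * |h x| ≤ ((m + 1) * (1 + ‖s0‖)) * (δ * (m + 1)) :=
            mul_le_mul (h8.trans h10) h1 (abs_nonneg _) (by positivity)
        _ = _ := by ring
    have h11 : ‖a‖ ≤ (m + 1) ^ 2 * c := h7.trans (mul_le_mul_of_nonneg_left hδs1 (by positivity))
    have h12 : ‖a‖ ≤ 1 := by
      have : ((m : ℝ) + 1) ^ 2 * c ≤ B * c := by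
        refine mul_le_mul_of_nonneg_right ?_ hc0.le
        rw [hB]
        nlinarith [sq_nonneg ((m : ℝ) + 1)]
      linarith
    have h13 : ‖Complex.exp a - 1‖ ≤ 2 * ‖a‖ := Complex.norm_exp_sub_one_le h12
    have hfx : ‖f (mt (e1 m + δ • x))‖ ≤ 1 := hfb _ (hdet x hx).ne'
    have hsz : sz (mt (e1 m + δ • x) - 1) ≤ δ := by
      have h14 : sz (mt (e1 m + δ • x) - 1) = ‖δ • x‖ := by
        unfold sz
        congr 1
        funext i j
        show e1 m i j + δ * x i j - (1 : Mat m) i j = δ * x i j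
        unfold e1
        ring
      rw [h14, norm_smul, Real.norm_eq_abs, abs_of_pos hδ]
      exact mul_le_of_le_one_right hδ.le hx
    have hf1 : ‖f (mt (e1 m + δ • x)) - 1‖ ≤ C0 * c := by
      have h15 : C0 * sz (mt (e1 m + δ • x) - 1) ≤ 1 := by
        have h16 : C0 * sz (mt (e1 m + δ • x) - 1) ≤ C0 * c :=
          mul_le_mul_of_nonneg_left (hsz.trans hδ1) (by linarith)
        have h17 : C0 * c ≤ B * c := by
          refine mul_le_mul_of_nonneg_right ?_ hc0.le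
          rw [hB]
          nlinarith [sq_nonneg ((m : ℝ) + 1)]
        linarith
      refine (hfP _ h15).trans ?_
      have h18 : C0 * P * sz (mt (e1 m + δ • x) - 1) ≤ C0 * P * δ :=
        mul_le_mul_of_nonneg_left hsz (by positivity)
      have h19 : C0 * P * δ = C0 * (δ * P) := by ring
      rw [h19] at h18
      exact h18.trans (mul_le_mul_of_nonneg_left hδP1 (by linarith))
    have h20 : E x - 1 = (Complex.exp a - 1) * f (mt (e1 m + δ • x)) +
        (f (mt (e1 m + δ • x)) - 1) := by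
      rw [hE, ha]
      ring
    rw [h20]
    refine (norm_add_le _ _).trans ?_
    rw [norm_mul]
    have h21 : ‖Complex.exp a - 1‖ * ‖f (mt (e1 m + δ • x))‖ ≤ 2 * ((m + 1) ^ 2 * c) := by
      refine (mul_le_mul_of_nonneg_left hfx (norm_nonneg _)).trans ?_
      rw [mul_one]
      linarith
    have h22 : 2 * (((m : ℝ) + 1) ^ 2 * c) + C0 * c = B * c := by
      rw [hB]
      ring
    linarith
  obtain ⟨hR1, hR2⟩ := hcore E h δ hEm hhm.aestronglyMeasurable hδ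
    (fun x hx => hE1 x (hsupp x hx)) (fun x hx => hlog x (hsupp x hx))
  have hZ : ∀ w : ℂ, ZA (dD^[m] (bi m χ δ)) f (s0 + w) = ∫ x : V m, (dD^[m] (ph χ)) (mt x) *
      E x * Complex.exp (w * ((h x : ℝ) : ℂ)) := by
    intro w
    rw [ZA_eq hm1 hχ f s0 w δ hδ hdet, hE, hh]
  constructor
  · intro s hs
    have h2 : s = s0 + (s - s0) := by ring
    rw [h2, hZ]
    exact hR1 (s - s0) hs
  · refine ⟨s0 + ((u * δ⁻¹ : ℝ) : ℂ), ?_, ?_⟩
    · rw [add_sub_cancel_left, Complex.norm_real, Real.norm_of_nonneg (by positivity)]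
      have : 0 < δ⁻¹ := inv_pos.2 hδ
      nlinarith
    · rw [hZ]
      exact hR2

end Pool.Agent.H27.L1.H16.GZZ
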